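import Pool.Agent.Y478.FL.Star

/-! Evaluation of the flow polynomials of the graphs `GS m` and their roots. -/

set_option autoImplicit false

namespace Pool.Agent.Y478.FL

open Finset Pool.Agent.Helper103.Flow

/-- the weight of a colouring of the example together with the new vertices -/
def H11m {R : Type} [CommRing R] (m : ℕ) (q : R) (l : List ℕ) : R :=
  H11 q l * (q * sw q (l.getD 0 0) (l.getD 1 0) (l.getD 2 0)) ^ m

/-- the weight of a colouring of the five core vertices -/
def H5m {R : Type} [CommRing R] (m : ℕ) (q : R) (l : List ℕ) : R :=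
  H5 q l * (q * sw q (l.getD 0 0) (l.getD 1 0) (l.getD 2 0)) ^ m

theorem csum_mul {R : Type} [CommRing R] (n : ℕ) (H : List ℕ → R) (c : R) (m : ℕ) (l : List ℕ) :
    csum n (fun l => H l * c) m l = csum n H m l * c := by
  induction m generalizing l with
  | zero => rfl
  | succ m ih =>
    rw [csum, csum, Finset.sum_mul]
    exact Finset.sum_congr rfl fun x _ => ih _

theorem csum_congr' {R : Type} [CommRing R] (n : ℕ) (H H' : List ℕ → R) (m : ℕ) (l : List ℕ)
    (h : ∀ l', H (l ++ l') = H' (l ++ l')) :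
    csum n H m l = csum n H' m l := by
  induction m generalizing l with
  | zero =>
    show H l = H' l
    simpa using h []
  | succ m ih =>
    rw [csum, csum]
    refine Finset.sum_congr rfl fun c _ => ih _ ?_
    intro l'
    rw [List.append_assoc]
    exact h _

theorem eliminate_m (m n : ℕ) (a0 a1 a2 a3 a4 : ℕ) (h0 : a0 < n) (h1 : a1 < n) (h2 : a2 < n)
    (h3 : a3 < n) (h4 : a4 < n) :
    csum n (H11m m (n : ℤ)) 6 [a0, a1, a2, a3, a4] = H5m m (n : ℤ) [a0, a1, a2, a3, a4] := by
  rw [csum_congr' n (H11m m (n : ℤ))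
    (fun l => H11 (n : ℤ) l * ((n : ℤ) * sw (n : ℤ) a0 a1 a2) ^ m) 6 [a0, a1, a2, a3, a4]
    (fun l' => by simp [H11m]), csum_mul, eliminate n a0 a1 a2 a3 a4 h0 h1 h2 h3 h4]
  simp [H5m]

theorem H5m_perm {R : Type} [CommRing R] (m : ℕ) (q : R) (π : Equiv.Perm ℕ) (l : List ℕ) :
    H5m m q (l.map π) = H5m m q l := by
  rcases l with _ | ⟨a, _ | ⟨b, _ | ⟨c, _ | ⟨d, _ | ⟨e, _ | ⟨f, l⟩⟩⟩⟩⟩⟩ <;>
    simp [H5m, H5, sw, ew, gw, π.injective.eq_iff]

theorem H5m_map {R S : Type} [CommRing R] [CommRing S] (φ : R →+* S) (m : ℕ) (q : R)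
    (l : List ℕ) : φ (H5m m q l) = H5m m (φ q) l := by
  rw [H5m, H5m, map_mul, map_pow, map_mul, H5_map, sw_map]

theorem potts_eval_m (m n : ℕ) :
    (pottsPoly (GS m).edgeFinset).eval (n : ℤ) = psum (n : ℤ) (H5m m (n : ℤ)) 5 0 [] := by
  rw [pottsPoly_eval, potts_GS]
  have h1 : ∀ σ : Fin 11 → Fin n,
      (∏ e ∈ Gr.edgeFinset, ((if Mono σ e then (n : ℤ) else 0) - 1)) *
          ((n : ℤ) * sw (n : ℤ) (σ 0) (σ 1) (σ 2)) ^ m
        = H11m m (n : ℤ) ([] ++ (List.ofFn σ).map Fin.val) := by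
    intro σ
    rw [H11m, ← prod_eq]
    simp [List.ofFn_succ]
  rw [Finset.sum_congr rfl (fun σ _ => h1 σ), csum_fun]
  rw [show (11 : ℕ) = 5 + 6 from rfl, csum_add]
  rw [← csum_eq_psum n (H5m m (n : ℤ)) (H5m_perm _ _) 5 0 [] (Nat.zero_le _) (by simp)]
  refine csum_congr n _ _ 5 [] (by simp) ?_
  intro l' h1 h2
  match l', h1, h2 with
  | [a, b, c, d, e], _, h2 =>
    exact eliminate_m m n a b c d e (h2 a (by simp)) (h2 b (by simp)) (h2 c (by simp))
      (h2 d (by simp)) (h2 e (by simp))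

theorem pottsPoly_eq_m (m : ℕ) :
    pottsPoly (GS m).edgeFinset = psum (Polynomial.X : Polynomial ℤ) (H5m m Polynomial.X) 5 0 [] := by
  apply Polynomial.eq_of_infinite_eval_eq
  refine Set.Infinite.mono (s := Set.range (fun n : ℕ => (n : ℤ))) ?_
    (Set.infinite_range_of_injective Nat.cast_injective)
  rintro _ ⟨n, rfl⟩
  show Polynomial.eval (n : ℤ) _ = Polynomial.eval (n : ℤ) _
  rw [potts_eval_m, ← Polynomial.coe_evalRingHom, psum_map]
  simp only [H5m_map, Polynomial.coe_evalRingHom, Polynomial.eval_X]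

theorem flow_eq_m (m : ℕ) (q : ℝ) (hq : q ≠ 0) :
    q ^ (11 + m) * flowPoly (GS m) q = psum q (H5m m q) 5 0 [] := by
  have h := flowPoly_eq (GS m) q hq
  rw [Fintype.card_sum, Fintype.card_fin, Fintype.card_fin] at h
  rw [h, pottsPoly_eq_m]
  have h2 := psum_map (Polynomial.aeval (R := ℤ) q).toRingHom Polynomial.X (H5m m Polynomial.X)
    5 0 []
  simp only [H5m_map] at h2
  simpa using h2

/-! ### The three parts -/

/-- The type of the triple. -/
def tp (l : List ℕ) : ℕ :=
  if l.getD 0 0 = l.getD 1 0 ∧ l.getD 1 0 = l.getD 2 0 then 1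
  else if l.getD 0 0 = l.getD 1 0 ∨ l.getD 1 0 = l.getD 2 0 ∨ l.getD 0 0 = l.getD 2 0 then 2
  else 3

/-- the part of type `t` -/
def H5t {R : Type} [CommRing R] (t : ℕ) (q : R) (l : List ℕ) : R := if tp l = t then H5 q l else 0

theorem psum_add {R : Type} [CommRing R] (q : R) (H H' : List ℕ → R) (m k : ℕ) (l : List ℕ) :
    psum q (fun l => H l + H' l) m k l = psum q H m k l + psum q H' m k l := by
  induction m generalizing k l with
  | zero => rfl
  | succ m ih =>
    rw [psum, psum, psum]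
    have : ((List.range k).map fun c => psum q (fun l => H l + H' l) m k (l ++ [c])).sum =
        ((List.range k).map fun c => psum q H m k (l ++ [c])).sum +
        ((List.range k).map fun c => psum q H' m k (l ++ [c])).sum := by
      rw [← List.sum_map_add]
      congr 1
      exact List.map_congr_left fun c _ => ih k _
    rw [this, ih]
    ring

theorem psum_mul {R : Type} [CommRing R] (q : R) (H : List ℕ → R) (c : R) (m k : ℕ)
    (l : List ℕ) :
    psum q (fun l => c * H l) m k l = c * psum q H m k l := by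
  induction m generalizing k l with
  | zero => rfl
  | succ m ih =>
    rw [psum, psum]
    have : ((List.range k).map fun x => psum q (fun l => c * H l) m k (l ++ [x])).sum =
        c * ((List.range k).map fun x => psum q H m k (l ++ [x])).sum := by
      rw [← List.sum_map_mul_left]
      congr 1
      exact List.map_congr_left fun x _ => ih k _
    rw [this, ih]
    ring

theorem H5m_split {R : Type} [CommRing R] (m : ℕ) (q : R) (l : List ℕ) :
    H5m m q l = (q * ((q - 1) * (q - 2))) ^ m * H5t 1 q l + ((q * (2 - q)) ^ m * H5t 2 q l +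
      (q * 2) ^ m * H5t 3 q l) := by
  rw [H5m, H5t, H5t, H5t, tp, sw]
  split_ifs <;> simp_all <;> ring

theorem psum_split {R : Type} [CommRing R] (m : ℕ) (q : R) :
    psum q (H5m m q) 5 0 [] = q ^ m * (((q - 1) * (q - 2)) ^ m * psum q (H5t 1 q) 5 0 [] +
      ((2 - q) ^ m * psum q (H5t 2 q) 5 0 [] + 2 ^ m * psum q (H5t 3 q) 5 0 [])) := by
  have h : H5m m q = fun l => (q * ((q - 1) * (q - 2))) ^ m * H5t 1 q l +
      ((q * (2 - q)) ^ m * H5t 2 q l + (q * 2) ^ m * H5t 3 q l) := by
    funext l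
    exact H5m_split m q l
  rw [h, psum_add, psum_add, psum_mul, psum_mul, psum_mul, mul_pow, mul_pow, mul_pow]
  ring

end Pool.Agent.Y478.FL
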