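import Pool.Agent.Y478.FL.Eval

/-! Sign change of the flow polynomial of `GS m` on `(3/2, 199/100)`. -/

set_option autoImplicit false

namespace Pool.Agent.Y478.FL

open Finset Pool.Agent.Helper103.Flow

theorem H5t_map {R S : Type} [CommRing R] [CommRing S] (φ : R →+* S) (t : ℕ) (q : R)
    (l : List ℕ) : φ (H5t t q l) = H5t t (φ q) l := by
  rw [H5t, H5t]
  split_ifs
  · exact H5_map φ q l
  · exact map_zero φ

/-- the three parts, as real numbers -/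
noncomputable def P (t : ℕ) (q : ℝ) : ℝ := psum q (H5t t q) 5 0 []

theorem P_rat (t : ℕ) (q : ℚ) : P t (q : ℝ) = ((psum q (H5t t q) 5 0 [] : ℚ) : ℝ) := by
  have h2 := psum_map (Rat.castHom ℝ) q (H5t t q) 5 0 []
  simp only [H5t_map] at h2
  exact h2.symm

theorem a1 : 0 ≤ psum (3 / 2 : ℚ) (H5t 1 (3 / 2)) 5 0 [] ∧
    psum (3 / 2 : ℚ) (H5t 1 (3 / 2)) 5 0 [] ≤ psum (3 / 2 : ℚ) (H5t 2 (3 / 2)) 5 0 [] ∧
    0 < psum (3 / 2 : ℚ) (H5t 3 (3 / 2)) 5 0 [] := by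
  decide +kernel

theorem a2 : 0 ≤ psum (199 / 100 : ℚ) (H5t 1 (199 / 100)) 5 0 [] ∧
    psum (199 / 100 : ℚ) (H5t 1 (199 / 100)) 5 0 [] +
      psum (199 / 100 : ℚ) (H5t 2 (199 / 100)) 5 0 [] ≤ 0 ∧
    psum (199 / 100 : ℚ) (H5t 3 (199 / 100)) 5 0 [] < 0 := by
  decide +kernel

theorem b1 : 0 ≤ P 1 (3 / 2) ∧ P 1 (3 / 2) ≤ P 2 (3 / 2) ∧ 0 < P 3 (3 / 2) := by
  have hq : ((3 / 2 : ℚ) : ℝ) = 3 / 2 := by norm_num
  rw [← hq, P_rat, P_rat, P_rat]
  exact_mod_cast a1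

theorem b2 : 0 ≤ P 1 (199 / 100) ∧ P 1 (199 / 100) + P 2 (199 / 100) ≤ 0 ∧
    P 3 (199 / 100) < 0 := by
  have hq : ((199 / 100 : ℚ) : ℝ) = 199 / 100 := by norm_num
  rw [← hq, P_rat, P_rat, P_rat]
  exact_mod_cast a2

theorem flow_P (m : ℕ) (q : ℝ) (hq : 0 < q) :
    q ^ 11 * flowPoly (GS m) q =
      ((q - 1) * (q - 2)) ^ m * P 1 q + ((2 - q) ^ m * P 2 q + 2 ^ m * P 3 q) := by
  have h := flow_eq_m m q hq.ne'
  rw [psum_split, pow_add, mul_comm (q ^ 11), mul_assoc] at h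
  exact mul_left_cancel₀ (pow_ne_zero m hq.ne') h

theorem abs_le_pow (m : ℕ) (q : ℝ) (h1 : 1 < q) (h2 : q < 2) :
    |((q - 1) * (q - 2)) ^ m| ≤ (2 - q) ^ m := by
  rw [abs_pow]
  refine pow_le_pow_left₀ (abs_nonneg _) ?_ m
  rw [abs_mul, abs_of_pos (by linarith), abs_of_neg (by linarith)]
  nlinarith

theorem flow_pos (m : ℕ) : 0 < flowPoly (GS m) (3 / 2) := by
  obtain ⟨h1, h2, h3⟩ := b1
  have h := flow_P m (3 / 2) (by norm_num)
  have ha := abs_le_pow m (3 / 2) (by norm_num) (by norm_num)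
  have hb := (abs_le.1 ha).1
  have hpos : (0 : ℝ) < (2 - 3 / 2) ^ m := by positivity
  have h2m : (0 : ℝ) < 2 ^ m := by positivity
  have h4 : 0 < (3 / 2 : ℝ) ^ 11 * flowPoly (GS m) (3 / 2) := by
    rw [h]
    have e1 := mul_le_mul_of_nonneg_right hb h1
    have e2 := mul_le_mul_of_nonneg_left h2 hpos.le
    have e3 := mul_pos h2m h3
    linarith
  exact (mul_pos_iff_of_pos_left (by positivity)).1 h4

theorem flow_neg (m : ℕ) : flowPoly (GS m) (199 / 100) < 0 := by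
  obtain ⟨h1, h2, h3⟩ := b2
  have h := flow_P m (199 / 100) (by norm_num)
  have ha := abs_le_pow m (199 / 100) (by norm_num) (by norm_num)
  have hb := (abs_le.1 ha).2
  have hpos : (0 : ℝ) < (2 - 199 / 100) ^ m := pow_pos (by norm_num) m
  have h2m : (0 : ℝ) < 2 ^ m := by positivity
  have h4 : (199 / 100 : ℝ) ^ 11 * flowPoly (GS m) (199 / 100) < 0 := by
    rw [h]
    have e1 := mul_le_mul_of_nonneg_right hb h1
    have e2 := mul_nonpos_of_nonneg_of_nonpos hpos.le h2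
    have e3 := mul_neg_of_pos_of_neg h2m h3
    linarith
  by_contra hc
  push Not at hc
  have := mul_nonneg (show (0 : ℝ) ≤ (199 / 100) ^ 11 by positivity) hc
  linarith

theorem flow_cont (m : ℕ) : ContinuousOn (flowPoly (GS m)) (Set.Icc (3 / 2) (199 / 100)) := by
  unfold flowPoly
  refine continuousOn_finsetSum _ fun A _ => ?_
  refine ContinuousOn.mul continuousOn_const ?_
  refine ContinuousOn.zpow₀ continuousOn_id _ ?_
  intro x hx
  left
  have := hx.1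
  simp only [id]
  linarith

theorem flow_root (m : ℕ) : ∃ q : ℝ, 3 / 2 < q ∧ q < 199 / 100 ∧ flowPoly (GS m) q = 0 := by
  have h := intermediate_value_Icc' (show (3 / 2 : ℝ) ≤ 199 / 100 by norm_num) (flow_cont m)
  obtain ⟨q, hq, hq0⟩ := h ⟨(flow_neg m).le, (flow_pos m).le⟩
  refine ⟨q, lt_of_le_of_ne hq.1 ?_, lt_of_le_of_ne hq.2 ?_, hq0⟩
  · rintro rfl
    have := flow_pos m
    rw [hq0] at this
    exact lt_irrefl _ this
  · rintro rfl
    have := flow_neg m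
    rw [hq0] at this
    exact lt_irrefl _ this

end Pool.Agent.Y478.FL
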