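import Pool.Agent.Helper103.Flow4

/-! The starting example with `m` further vertices of degree three, each of them joined to the
vertices `0, 1, 2`. -/

set_option autoImplicit false

namespace Pool.Agent.Y478.FL

open Finset Pool.Agent.Helper103.Flow

/-- The graph: the starting example `Gr` on `Fin 11` and `m` new vertices, each of them joined to
the vertices `0, 1, 2` of `Gr`. -/
def GS (m : ℕ) : SimpleGraph (Fin 11 ⊕ Fin m) where
  Adj a b := match a, b with
    | Sum.inl a, Sum.inl b => Gr.Adj a b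
    | Sum.inl a, Sum.inr _ => a.1 < 3
    | Sum.inr _, Sum.inl b => b.1 < 3
    | Sum.inr _, Sum.inr _ => False
  symm := ⟨by
    rintro (a | a) (b | b) h
    · exact Gr.symm.symm _ _ h
    · exact h
    · exact h
    · exact h⟩
  loopless := ⟨by
    rintro (a | a) h
    · exact Gr.loopless.irrefl _ h
    · exact h⟩

instance (m : ℕ) : DecidableRel (GS m).Adj
  | Sum.inl a, Sum.inl b => inferInstanceAs (Decidable (Gr.Adj a b))
  | Sum.inl a, Sum.inr _ => inferInstanceAs (Decidable (a.1 < 3))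
  | Sum.inr _, Sum.inl b => inferInstanceAs (Decidable (b.1 < 3))
  | Sum.inr _, Sum.inr _ => inferInstanceAs (Decidable False)

theorem adj_ll (m : ℕ) (a b : Fin 11) : (GS m).Adj (Sum.inl a) (Sum.inl b) ↔ Gr.Adj a b := Iff.rfl
theorem adj_lr (m : ℕ) (a : Fin 11) (j : Fin m) :
    (GS m).Adj (Sum.inl a) (Sum.inr j) ↔ a.1 < 3 := Iff.rfl
theorem adj_rl (m : ℕ) (a : Fin 11) (j : Fin m) :
    (GS m).Adj (Sum.inr j) (Sum.inl a) ↔ a.1 < 3 := Iff.rfl
theorem adj_rr (m : ℕ) (i j : Fin m) : ¬ (GS m).Adj (Sum.inr i) (Sum.inr j) := fun h => h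

/-- the first embedding on edges -/
def eL (m : ℕ) : Sym2 (Fin 11) ↪ Sym2 (Fin 11 ⊕ Fin m) :=
  ⟨Sym2.map Sum.inl, Sym2.map.injective Sum.inl_injective⟩

/-- a new edge -/
def eN (m : ℕ) : Fin 3 × Fin m ↪ Sym2 (Fin 11 ⊕ Fin m) :=
  ⟨fun p => s(Sum.inl (Fin.castLE (by norm_num) p.1), Sum.inr p.2), by
    rintro ⟨i, j⟩ ⟨i', j'⟩ h
    simp only [Sym2.eq_iff, Sum.inl.injEq, Sum.inr.injEq, reduceCtorEq, and_false, or_false]
      at h
    obtain ⟨h1, h2⟩ := h
    rw [h2]
    congr 1
    exact Fin.castLE_injective _ h1⟩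

theorem edgeFinset_GS (m : ℕ) : (GS m).edgeFinset =
    (Gr.edgeFinset.map (eL m)).disjUnion ((univ : Finset (Fin 3 × Fin m)).map (eN m)) (by
      rw [Finset.disjoint_left]
      intro e h1 h2
      rw [Finset.mem_map] at h1 h2
      obtain ⟨e1, -, rfl⟩ := h1
      obtain ⟨p, -, h2⟩ := h2
      induction e1 using Sym2.ind with
      | _ a b =>
        have h3 : s(Sum.inl (Fin.castLE (by norm_num) p.1), Sum.inr p.2) =
            (s(Sum.inl a, Sum.inl b) : Sym2 (Fin 11 ⊕ Fin m)) := h2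
        simp at h3) := by
  ext e
  rw [Finset.mem_disjUnion, Finset.mem_map, Finset.mem_map, SimpleGraph.mem_edgeFinset]
  induction e using Sym2.ind with
  | _ a b =>
    rw [SimpleGraph.mem_edgeSet]
    constructor
    · intro h
      rcases a with a | a <;> rcases b with b | b
      · left
        exact ⟨s(a, b), by rw [SimpleGraph.mem_edgeFinset]; exact h, rfl⟩
      · right
        exact ⟨(⟨a.1, h⟩, b), mem_univ _, rfl⟩
      · right
        exact ⟨(⟨b.1, h⟩, a), mem_univ _, Sym2.eq_swap⟩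
      · exact absurd h (adj_rr m a b)
    · rintro (⟨e1, h1, h2⟩ | ⟨p, -, h2⟩)
      · induction e1 using Sym2.ind with
        | _ x y =>
          rw [SimpleGraph.mem_edgeFinset, SimpleGraph.mem_edgeSet] at h1
          have h3 : (s(Sum.inl x, Sum.inl y) : Sym2 (Fin 11 ⊕ Fin m)) = s(a, b) := h2
          rw [← SimpleGraph.mem_edgeSet, ← h3, SimpleGraph.mem_edgeSet]
          exact h1
      · have h3 : (s(Sum.inl (Fin.castLE (by norm_num) p.1), Sum.inr p.2) :
            Sym2 (Fin 11 ⊕ Fin m)) = s(a, b) := h2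
        rw [← SimpleGraph.mem_edgeSet, ← h3, SimpleGraph.mem_edgeSet]
        exact p.1.2

theorem card_edges (m : ℕ) : (GS m).edgeFinset.card = 27 + 3 * m := by
  rw [edgeFinset_GS, Finset.card_disjUnion, Finset.card_map, Finset.card_map, gr_card]
  simp

/-! ### Connectivity -/

theorem threeConnected_GS (m : ℕ) : ThreeConnected (GS m) := by
  classical
  refine ⟨by rw [Fintype.card_sum, Fintype.card_fin]; omega, ?_⟩
  intro S hS
  set S₀ : Finset (Fin 11) := univ.filter fun a => Sum.inl a ∈ S with hS₀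
  have hS₀c : S₀.card ≤ 2 := by
    refine le_trans ?_ hS
    rw [← Finset.card_map (⟨Sum.inl, Sum.inl_injective⟩ : Fin 11 ↪ Fin 11 ⊕ Fin m)]
    refine Finset.card_le_card ?_
    intro x hx
    rw [Finset.mem_map] at hx
    obtain ⟨a, ha, rfl⟩ := hx
    exact (Finset.mem_filter.1 ha).2
  have hmem : ∀ a, a ∉ S₀ ↔ Sum.inl a ∉ S := by
    intro a
    rw [hS₀, Finset.mem_filter]
    simp
  have hc := gr_threeConnected.2 S₀ hS₀c
  obtain ⟨r⟩ := hc.nonempty
  let f : Gr.induce {v : Fin 11 | v ∉ S₀} →g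
      (GS m).induce {v : Fin 11 ⊕ Fin m | v ∉ S} :=
    { toFun := fun v => ⟨Sum.inl v.1, (hmem v.1).1 v.2⟩
      map_rel' := fun {a b} h => h }
  rw [SimpleGraph.connected_iff_exists_forall_reachable]
  refine ⟨f r, ?_⟩
  have hl : ∀ (a : Fin 11) (ha : Sum.inl a ∉ S),
      ((GS m).induce {v : Fin 11 ⊕ Fin m | v ∉ S}).Reachable (f r) ⟨Sum.inl a, ha⟩ := by
    intro a ha
    have h1 := hc.preconnected r ⟨a, (hmem a).2 ha⟩
    exact h1.map f
  rintro ⟨v | j, hv⟩
  · exact hl v hv
  · obtain ⟨i, hi⟩ : ∃ i : Fin 3, (Sum.inl (Fin.castLE (by norm_num) i) : Fin 11 ⊕ Fin m) ∉ S := by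
      by_contra hcon
      push Not at hcon
      have h3 : (univ.map (⟨fun i : Fin 3 => (Sum.inl (Fin.castLE (by norm_num) i) :
          Fin 11 ⊕ Fin m), fun a b h => Fin.castLE_injective (by norm_num) (Sum.inl_injective h)⟩ :
            Fin 3 ↪ Fin 11 ⊕ Fin m)).card ≤ S.card := by
        refine Finset.card_le_card ?_
        intro x hx
        rw [Finset.mem_map] at hx
        obtain ⟨i, -, rfl⟩ := hx
        exact hcon i
      rw [Finset.card_map, Finset.card_univ, Fintype.card_fin] at h3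
      omega
    refine (hl _ hi).trans (SimpleGraph.Adj.reachable ?_)
    rw [SimpleGraph.induce_adj]
    exact i.2

theorem degree_GS (m : ℕ) (a : Fin 11) (ha : a.1 < 3) :
    (GS m).degree (Sum.inl a) = Gr.degree a + m := by
  have h2 : (GS m).neighborFinset (Sum.inl a) =
      (Gr.neighborFinset a).disjSum (univ : Finset (Fin m)) := by
    ext x
    rw [SimpleGraph.mem_neighborFinset]
    rcases x with x | x
    · rw [adj_ll]
      simp
    · rw [adj_lr]
      simp [ha]
  rw [← SimpleGraph.card_neighborFinset_eq_degree, h2, Finset.card_disjSum,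
    SimpleGraph.card_neighborFinset_eq_degree, Finset.card_univ, Fintype.card_fin]

theorem not_eulerian_GS (m : ℕ) : ¬ Eulerian (GS m) := by
  rintro ⟨-, h⟩
  have h0 := h (Sum.inl 0)
  have h1 := h (Sum.inl 1)
  rw [degree_GS m 0 (by decide)] at h0
  rw [degree_GS m 1 (by decide)] at h1
  have e0 : Gr.degree 0 = 7 := by decide +kernel
  have e1 : Gr.degree 1 = 4 := by decide +kernel
  rw [e0, Nat.even_iff] at h0
  rw [e1, Nat.even_iff] at h1
  omega

/-! ### The Potts sum -/

/-- The weight of the new vertices: `star (n) x y z * n`. -/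
def sw {R : Type} [CommRing R] (q : R) (x y z : ℕ) : R :=
  if x = y ∧ y = z then (q - 1) * (q - 2)
  else if x = y ∨ y = z ∨ x = z then 2 - q
  else 2

theorem sw_map {R S : Type} [CommRing R] [CommRing S] (φ : R →+* S) (q : R) (x y z : ℕ) :
    φ (sw q x y z) = sw (φ q) x y z := by
  unfold sw; split_ifs <;> simp [map_ofNat]

theorem star_sum (n x y z : ℕ) (hx : x < n) (hy : y < n) (hz : z < n) :
    ∑ u ∈ range n, (ew (n : ℤ) x u * ew (n : ℤ) y u * ew (n : ℤ) z u)
      = (n : ℤ) * sw (n : ℤ) x y z := by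
  have hT : ({x, y, z} : Finset ℕ) ⊆ range n := by
    intro a ha
    simp only [Finset.mem_insert, Finset.mem_singleton] at ha
    rw [Finset.mem_range]
    rcases ha with rfl | rfl | rfl <;> assumption
  rw [sum_const_off n _ (-1) {x, y, z} hT]
  · by_cases h1 : x = y
    · subst h1
      by_cases h2 : x = z
      · subst h2
        simp [ew, sw]
        ring
      · simp [ew, sw, h2, Ne.symm h2]
        ring
    · by_cases h2 : y = z
      · subst h2
        simp [ew, sw, h1, Ne.symm h1]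
        ring
      · by_cases h3 : x = z
        · subst h3
          simp [ew, sw, h1, h2]
          ring
        · simp [ew, sw, h1, h2, h3, Ne.symm h1, Ne.symm h2, Ne.symm h3]
          ring
  · intro u _ hu
    simp only [Finset.mem_insert, Finset.mem_singleton, not_or] at hu
    simp [ew, Ne.symm hu.1, Ne.symm hu.2.1, Ne.symm hu.2.2]

theorem weight_eq {V : Type} (n : ℕ) (σ : V → Fin n) (a b : V) :
    ((if Mono σ s(a, b) then (n : ℤ) else 0) - 1) = ew (n : ℤ) (σ a) (σ b) := by
  rw [ew]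
  by_cases h : σ a = σ b
  · rw [if_pos ((mono_mk σ _ _).2 h), if_pos (by rw [h])]
  · rw [if_neg (fun h' => h ((mono_mk σ _ _).1 h')), if_neg (fun h' => h (Fin.ext h'))]
    ring

theorem potts_GS (m n : ℕ) :
    ∑ σ : Fin 11 ⊕ Fin m → Fin n, ∏ e ∈ (GS m).edgeFinset, ((if Mono σ e then (n : ℤ) else 0) - 1)
      = ∑ σ : Fin 11 → Fin n, (∏ e ∈ Gr.edgeFinset, ((if Mono σ e then (n : ℤ) else 0) - 1)) *
          ((n : ℤ) * sw (n : ℤ) (σ 0) (σ 1) (σ 2)) ^ m := by
  rw [← (Equiv.sumArrowEquivProdArrow (Fin 11) (Fin m) (Fin n)).symm.sum_comp,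
    Fintype.sum_prod_type]
  refine Finset.sum_congr rfl fun σ _ => ?_
  have h1 : ∀ τ : Fin m → Fin n,
      ∏ e ∈ (GS m).edgeFinset,
        ((if Mono ((Equiv.sumArrowEquivProdArrow (Fin 11) (Fin m) (Fin n)).symm (σ, τ)) e
          then (n : ℤ) else 0) - 1) =
      (∏ e ∈ Gr.edgeFinset, ((if Mono σ e then (n : ℤ) else 0) - 1)) *
        ∏ j : Fin m, (ew (n : ℤ) (σ 0) (τ j) * ew (n : ℤ) (σ 1) (τ j) * ew (n : ℤ) (σ 2) (τ j)) := by
    intro τ
    rw [edgeFinset_GS, Finset.prod_disjUnion, Finset.prod_map, Finset.prod_map]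
    refine congrArg₂ (· * ·) ?_ ?_
    · refine Finset.prod_congr rfl fun e _ => ?_
      induction e using Sym2.ind with
      | _ a b =>
        have h2 : eL m s(a, b) = s(Sum.inl a, Sum.inl b) := rfl
        rw [h2, weight_eq, weight_eq]
        rfl
    · refine (Fintype.prod_prod_type_right _).trans ?_
      refine Finset.prod_congr rfl fun j _ => ?_
      refine (Fin.prod_univ_three _).trans ?_
      have h2 : ∀ i : Fin 3, eN m (i, j) = s(Sum.inl (Fin.castLE (by norm_num) i), Sum.inr j) :=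
        fun i => rfl
      rw [h2, h2, h2, weight_eq, weight_eq, weight_eq]
      rfl
  rw [Finset.sum_congr rfl fun τ _ => h1 τ, ← Finset.mul_sum]
  congr 1
  rw [← star_sum n _ _ _ (σ 0).2 (σ 1).2 (σ 2).2,
    ← Fin.sum_univ_eq_sum_range (fun u => ew (n : ℤ) (σ 0) u * ew (n : ℤ) (σ 1) u *
      ew (n : ℤ) (σ 2) u) n, Fintype.sum_pow]

end Pool.Agent.Y478.FL
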